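import Pool.Agent.Results.MP_17a322_nt.LinkedArrangements
import Pool.Graph.R_pool_sql_team_seeded_3997aac3.Q272.HA.Rat

/-!
# Curves with rational Weierstrass points: configurations as points off the braid arrangement
-/

set_option autoImplicit false

namespace Pool.Agent.H583.HC

open Finset NumberField IsDedekindDomain WithZero Pool.Agent.W318 Height
open Pool.Agent.TH905.HS (root pol log_disc_le equal_of_good pol_isHyp)
open Pool.Agent.Results.MP_17a322_nt Pool.Agent.Results.MP_2ec8a3_nt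

/-- the index set of the braid arrangement -/
abbrev Jx (n : ℕ) : Type := Fin (n + 1) ⊕ {p : Fin (n + 1) × Fin (n + 1) // p.1 ≠ p.2}

/-- the form of an index -/
def bform (n : ℕ) : Jx n → Fin (n + 1) → ℤ
  | Sum.inl i => Pi.single i 1
  | Sum.inr p => Pi.single p.1.1 1 - Pi.single p.1.2 1

/-- the braid arrangement -/
noncomputable def braid (n : ℕ) : Fin (Fintype.card (Jx n)) → Fin (n + 1) → ℤ :=
  fun j => bform n ((Fintype.equivFin (Jx n)).symm j)

theorem braid_apply (n : ℕ) (t : Jx n) : braid n (Fintype.equivFin (Jx n) t) = bform n t := by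
  unfold braid
  rw [Equiv.symm_apply_apply]

theorem braid_contains (n : ℕ) : LinkedTriples.ContainsBraid (braid n) := by
  refine ⟨fun i => ⟨Fintype.equivFin (Jx n) (Sum.inl i), ?_⟩, fun i i' h =>
    ⟨Fintype.equivFin (Jx n) (Sum.inr ⟨(i, i'), h⟩), ?_⟩⟩
  · rw [braid_apply]
    rfl
  · rw [braid_apply]
    rfl

theorem sum_bform {n : ℕ} (x : Fin (n + 1) → ℤ) : ∀ t : Jx n, ∑ l, bform n t l * x l =
    match t with
    | Sum.inl i => x i
    | Sum.inr p => x p.1.1 - x p.1.2 := by
  have h1 : ∀ i : Fin (n + 1), ∑ l, Pi.single (M := fun _ => ℤ) i 1 l * x l = x i := by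
    intro i
    rw [Finset.sum_eq_single i]
    · rw [Pi.single_eq_same, one_mul]
    · intro l _ hl
      rw [Pi.single_eq_of_ne hl, zero_mul]
    · intro h
      exact absurd (mem_univ _) h
  intro t
  match t with
  | Sum.inl i => exact h1 i
  | Sum.inr p =>
    show ∑ l, (Pi.single (M := fun _ => ℤ) p.1.1 1 l - Pi.single (M := fun _ => ℤ) p.1.2 1 l) *
      x l = x p.1.1 - x p.1.2
    rw [← h1 p.1.1, ← h1 p.1.2, ← Finset.sum_sub_distrib]
    refine Finset.sum_congr rfl fun l _ => ?_
    ring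

/-- the configurations: coprime integral coordinates, different from each other and from zero -/
def Conf {n : ℕ} (x : Fin (n + 1) → ℤ) : Prop :=
  univ.gcd x = 1 ∧ (∀ i, x i ≠ 0) ∧ Function.Injective x

theorem isPoint_of_conf {n : ℕ} {x : Fin (n + 1) → ℤ} (h : Conf x) :
    LinkedArrangements.IsPoint (braid n) x := by
  refine ⟨h.1, ?_⟩
  intro j
  obtain ⟨t, rfl⟩ := (Fintype.equivFin (Jx n)).surjective j
  unfold LinkedArrangements.val
  rw [braid_apply, sum_bform]
  match t with
  | Sum.inl i => exact h.2.1 i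
  | Sum.inr p => exact sub_ne_zero.2 fun hh => p.2 (h.2.2 hh)

/-- the rational roots -/
noncomputable def rx {n : ℕ} (x : Fin (n + 1) → ℤ) : Fin (n + 1) → ℚ := fun i => (x i : ℚ)

theorem root_inj {n : ℕ} {x : Fin (n + 1) → ℤ} (h : Conf x) :
    Function.Injective (root (rx x)) := by
  unfold root rx
  intro i j hij
  revert hij
  refine Fin.cases ?_ (fun i' => ?_) i <;> refine Fin.cases ?_ (fun j' => ?_) j <;> intro hij
  · rfl
  · simp only [Fin.cons_zero, Fin.cons_succ] at hij
    exact absurd (by exact_mod_cast hij.symm) (h.2.1 j')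
  · simp only [Fin.cons_zero, Fin.cons_succ] at hij
    exact absurd (by exact_mod_cast hij) (h.2.1 i')
  · simp only [Fin.cons_succ] at hij
    have : x i' = x j' := by exact_mod_cast hij
    rw [h.2.2 this]

/-- the product of the odd primes which divide one of the forms -/
noncomputable def odd {n : ℕ} (x : Fin (n + 1) → ℤ) : ℕ :=
  ∏ p ∈ (∏ i, LinkedArrangements.val (braid n) x i).natAbs.primeFactors \ {2}, p

theorem odd_pos {n : ℕ} (x : Fin (n + 1) → ℤ) : 0 < odd x := by
  unfold odd
  refine Finset.prod_pos fun p hp => ?_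
  exact (Nat.prime_of_mem_primeFactors (mem_sdiff.1 hp).1).pos

/-- the odd primes at which two Weierstrass points meet are primes of bad reduction -/
theorem odd_le {n g : ℕ} (hn : n + 1 = 2 * g) (hg : 2 ≤ g) {d : ℚ} (hd : d ≠ 0)
    {x : Fin (n + 1) → ℤ} (h : Conf x) : odd x ≤ badNorm g (pol d (root (rx x))) := by
  have hx := root_inj h
  have hF : IsHyp g (pol d (root (rx x))) := pol_isHyp (by omega) hd hx
  obtain ⟨N, hN⟩ : ∃ N, N = (∏ i, LinkedArrangements.val (braid n) x i).natAbs := ⟨_, rfl⟩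
  have hodd : odd x = Pool.Agent.Q272.HA.radP 2 N := by
    unfold odd Pool.Agent.Q272.HA.radP
    rw [← hN]
    congr 1
    ext p
    rw [mem_sdiff, mem_filter, mem_singleton]
    constructor
    · rintro ⟨h1, h2⟩
      have := (Nat.prime_of_mem_primeFactors h1).two_le
      exact ⟨h1, by omega⟩
    · rintro ⟨h1, h2⟩
      exact ⟨h1, by omega⟩
  rw [hodd]
  have h1 := Pool.Agent.Q272.HA.bad_lower hF (Pool.Agent.Q272.HA.radP_sq 2 N) (fun p hp hpd => by
    have := (Pool.Agent.Q272.HA.dvd_radP hp hpd).2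
    rw [Rat.numberField_discr]
    norm_num
    omega) (fun v hv => by
    obtain ⟨p, hp, hpd, hpv⟩ := Pool.Agent.Y678.SZ.exists_prime_of_val v
      (Pool.Agent.Q272.HA.radP_sq 2 N).ne_zero hv
    obtain ⟨hpn, hp2⟩ := Pool.Agent.Q272.HA.dvd_radP hp hpd
    intro h0
    have hv2 : v.valuation ℚ (2 : ℚ) = 1 := by
      have hc : Nat.Coprime p 2 := (Nat.coprime_primes hp Nat.prime_two).mpr (by omega)
      rcases Pool.Agent.Y678.SZ.val_one_or (K := ℚ) hc v with h6 | h6
      · exact absurd h6 hpv.ne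
      · exact_mod_cast h6
    have heq := equal_of_good hg (by omega : n + 2 = 2 * g + 1) hd hx v hv2 h0
    -- one of the forms is divisible by `p`
    have h2 : (p : ℤ) ∣ ∏ i, LinkedArrangements.val (braid n) x i := by
      rw [hN] at hpn
      exact Int.natCast_dvd.2 hpn
    obtain ⟨j, -, hj⟩ := ((Nat.prime_iff_prime_int.1 hp).dvd_finsetProd_iff _).1 h2
    obtain ⟨t, rfl⟩ := (Fintype.equivFin (Jx n)).surjective j
    unfold LinkedArrangements.val at hj
    rw [braid_apply, sum_bform] at hj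
    have hlt : ∀ z : ℤ, (p : ℤ) ∣ z → v.valuation ℚ (z : ℚ) < 1 := by
      intro z hz
      rw [Pool.Agent.Q272.HA.val_natAbs]
      exact Pool.Agent.Y678.SZ.val_lt_of_dvd v hpv (Int.natCast_dvd.1 hz)
    have hall : ∀ i : Fin (n + 1), v.valuation ℚ ((x i : ℤ) : ℚ) < 1 := by
      have hr : ∀ i : Fin (n + 1), root (rx x) i.succ - root (rx x) 0 = ((x i : ℤ) : ℚ) := by
        intro i
        simp [root, rx]
      match t, hj with
      | Sum.inl i, hj =>
        intro k
        have h3 := heq k.succ 0 i.succ 0 (Fin.succ_ne_zero _) (Fin.succ_ne_zero _)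
        rw [hr, hr] at h3
        rw [h3]
        exact hlt _ hj
      | Sum.inr q, hj =>
        intro k
        have h3 := heq k.succ 0 q.1.1.succ q.1.2.succ (Fin.succ_ne_zero _)
          (fun hh => q.2 (Fin.succ_injective _ hh))
        have h4 : root (rx x) q.1.1.succ - root (rx x) q.1.2.succ =
            ((x q.1.1 - x q.1.2 : ℤ) : ℚ) := by
          simp [root, rx]
        rw [hr, h4] at h3
        rw [h3]
        exact hlt _ hj
    -- all coordinates are divisible by `p`
    have hdiv : ∀ i : Fin (n + 1), (p : ℤ) ∣ x i := by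
      intro i
      by_contra hcon
      have h5 : Nat.Coprime p (x i).natAbs := by
        rw [Nat.Prime.coprime_iff_not_dvd hp]
        intro hh
        exact hcon (Int.natCast_dvd.2 hh)
      rcases Pool.Agent.Y678.SZ.val_one_or (K := ℚ) h5 v with h6 | h6
      · exact hpv.ne h6
      · have h7 := hall i
        rw [Pool.Agent.Q272.HA.val_natAbs, h6] at h7
        exact lt_irrefl _ h7
    have h8 : (p : ℤ) ∣ 1 := by
      rw [← h.1]
      exact Finset.dvd_gcd fun i _ => hdiv i
    exact hp.one_lt.ne' (by exact_mod_cast Int.eq_one_of_dvd_one (by positivity) h8))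
  rwa [Module.finrank_self, pow_one] at h1

/-- the height of a quotient of integers -/
theorem pair_le {a b : ℤ} (ha : a ≠ 0) (hb : b ≠ 0) {H : ℕ} (h1 : a.natAbs ≤ H)
    (h2 : b.natAbs ≤ H) : logHeight ![(a : ℚ), (b : ℚ)] ≤ Real.log H := by
  rw [← logHeight₁_div_eq_logHeight, Rat.logHeight₁_eq_log_max]
  have hq0 : ((a : ℚ) / b) ≠ 0 := div_ne_zero (by exact_mod_cast ha) (by exact_mod_cast hb)
  have h3 : ((a : ℚ) / b).num.natAbs ≤ H := by
    refine le_trans (Nat.le_of_dvd (Int.natAbs_pos.2 ha) ?_) h1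
    rw [← Rat.divInt_eq_div]
    exact Int.natAbs_dvd_natAbs.2 (Rat.num_dvd a hb)
  have h4 : ((a : ℚ) / b).den ≤ H := by
    refine le_trans (Nat.le_of_dvd (Int.natAbs_pos.2 hb) ?_) h2
    rw [← Rat.divInt_eq_div]
    exact Int.natCast_dvd.1 (Rat.den_dvd a b)
  have h5 : 0 < max ((a : ℚ) / b).num.natAbs ((a : ℚ) / b).den :=
    lt_max_of_lt_right ((a : ℚ) / b).den_pos
  apply Real.log_le_log
  · exact_mod_cast h5
  · exact_mod_cast max_le h3 h4

/-- the height of a configuration -/
theorem logHeight_le {n : ℕ} (hn : 1 ≤ n) {x : Fin (n + 1) → ℤ} (h : Conf x) :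
    logHeight (rx x) ≤ n * LinkedTriples.height x := by
  have h0 : rx x 0 ≠ 0 := by
    unfold rx
    exact_mod_cast h.2.1 0
  refine (Pool.Agent.Q272.HA.height_le_sum hn (rx x) h0).trans ?_
  have h1 : ∀ i ∈ (univ : Finset (Fin n)), logHeight ![rx x 0, rx x i.succ] ≤
      LinkedTriples.height x := by
    intro i _
    exact pair_le (h.2.1 0) (h.2.1 i.succ)
      (Finset.le_sup (f := fun l => (x l).natAbs) (mem_univ 0))
      (Finset.le_sup (f := fun l => (x l).natAbs) (mem_univ i.succ))
  have h2 := Finset.sum_le_card_nsmul univ _ _ h1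
  rwa [card_univ, Fintype.card_fin, nsmul_eq_mul] at h2

/-- the discriminant of a configuration of small height -/
theorem disc_le {n g : ℕ} (hn : n + 1 = 2 * g) (hg : 2 ≤ g) (κ : ℝ) : ∃ c : ℝ, 0 < c ∧
    ∀ (x : Fin (n + 1) → ℤ) (d : ℚ), Conf x → d ≠ 0 →
      c * (badNorm g (pol d (root (rx x))) : ℝ) ^ (2 * (n + 2) + (n + 2) * (n + 1) * n *
        max κ 0) < discNorm g (pol d (root (rx x))) →
      κ * LinkedTriples.counting {2} (braid n) x < LinkedTriples.height x := by
  obtain ⟨c₁, hc₁⟩ := log_disc_le ℚ hn hg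
  refine ⟨Real.exp c₁, Real.exp_pos _, ?_⟩
  intro x d hx hd hviol
  by_contra hcon
  push Not at hcon
  have hinj := root_inj hx
  have h1 := Pool.Agent.TH905.HS.viol_log (Real.exp_pos _)
    (Pool.Agent.TH905.HS.badNorm_pos hn hd hinj) hviol
  have h2 := hc₁ (rx x) hinj d hd
  have h3 := logHeight_le (by omega : 1 ≤ n) hx
  rw [Real.log_exp] at h1
  have h4 : LinkedTriples.counting {2} (braid n) x ≤
      Real.log (badNorm g (pol d (root (rx x)))) := by
    rw [LinkedTriples.counting_eq]
    apply Real.log_le_log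
    · exact_mod_cast Pool.Agent.H583.AR.rd_pos {2} (braid n) x
    · exact_mod_cast odd_le hn hg hd hx
  have h5 : 0 ≤ LinkedTriples.counting {2} (braid n) x := by
    rw [LinkedTriples.counting_eq]
    apply Real.log_nonneg
    exact_mod_cast Pool.Agent.H583.AR.rd_pos {2} (braid n) x
  obtain ⟨M, hM⟩ : ∃ M, M = Real.log (badNorm g (pol d (root (rx x)))) := ⟨_, rfl⟩
  obtain ⟨N, hN⟩ : ∃ N, N = LinkedTriples.counting {2} (braid n) x := ⟨_, rfl⟩
  rw [← hM] at h1 h2 h4
  rw [← hN] at h4 h5 hcon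
  have h6 : LinkedTriples.height x ≤ max κ 0 * M := by
    calc LinkedTriples.height x ≤ κ * N := hcon
      _ ≤ max κ 0 * N := mul_le_mul_of_nonneg_right (le_max_left _ _) h5
      _ ≤ max κ 0 * M := mul_le_mul_of_nonneg_left h4 (le_max_right _ _)
  have h7 : ((n : ℝ) + 2) * (n + 1) * logHeight (rx x) ≤ (n + 2) * (n + 1) * (n *
      (max κ 0 * M)) := by
    refine mul_le_mul_of_nonneg_left (h3.trans ?_) (by positivity)
    exact mul_le_mul_of_nonneg_left h6 (Nat.cast_nonneg n)
  have h8 : (2 * ((n : ℝ) + 2) + (n + 2) * (n + 1) * n * max κ 0) * M =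
      2 * (n + 2) * M + (n + 2) * (n + 1) * (n * (max κ 0 * M)) := by ring
  rw [h8] at h1
  linarith

end Pool.Agent.H583.HC
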