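import Pool.Agent.H583.HC.A

/-!
# Many curves of genus two with rational Weierstrass points and few bad primes

The Weierstrass points are `∞`, `0`, `1`, `-1`, `s` and `1 / s`.
-/

set_option autoImplicit false

namespace Pool.Agent.H583.HC

open Finset NumberField IsDedekindDomain WithZero Pool.Agent.W318 Height
open Pool.Agent.TH905.HS (root pol log_disc_le equal_of_good pol_isHyp)

/-- the finite Weierstrass points -/
def e5 (p q : ℤ) : Fin 5 → ℤ := ![0, p * q, -(p * q), p ^ 2, q ^ 2]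

/-- the configuration -/
def x4 (p q : ℤ) : Fin (3 + 1) → ℤ := ![p * q, -(p * q), p ^ 2, q ^ 2]

theorem e5_succ (p q : ℤ) (i : Fin 4) : e5 p q i.succ = x4 p q i := by
  fin_cases i <;> rfl

theorem e5_eq (p q : ℤ) (i : Fin 5) : root (rx (x4 p q)) i = ((e5 p q i : ℤ) : ℚ) := by
  unfold root rx
  refine Fin.cases ?_ (fun j => ?_) i
  · simp [e5]
  · rw [Fin.cons_succ, e5_succ]

theorem e5_dvd (p q : ℤ) {i j : Fin 5} (hij : i ≠ j) :
    e5 p q i - e5 p q j ∣ (2 * p * q * (p - q) * (p + q)) ^ 2 := by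
  have key : ∀ i j : Fin 5, i < j →
      e5 p q i - e5 p q j ∣ (2 * p * q * (p - q) * (p + q)) ^ 2 := by
    intro i j h
    fin_cases i <;> fin_cases j <;> simp [e5] at h ⊢
    · exact ⟨4 * p * q * (p - q) ^ 2 * (p + q) ^ 2, by ring⟩
    · exact ⟨4 * p * q * (p - q) ^ 2 * (p + q) ^ 2, by ring⟩
    · exact ⟨2 * q * (p - q) * (p + q), by ring⟩
    · exact ⟨2 * p * (p - q) * (p + q), by ring⟩
    · exact ⟨2 * p * q * (p - q) ^ 2 * (p + q) ^ 2, by ring⟩
    · exact ⟨-(4 * p * q ^ 2 * (p - q) * (p + q) ^ 2), by ring⟩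
    · exact ⟨4 * p ^ 2 * q * (p - q) * (p + q) ^ 2, by ring⟩
    · exact ⟨-(4 * p * q ^ 2 * (p - q) ^ 2 * (p + q)), by ring⟩
    · exact ⟨-(4 * p ^ 2 * q * (p - q) ^ 2 * (p + q)), by ring⟩
    · exact ⟨4 * p ^ 2 * q ^ 2 * (p - q) * (p + q), by ring⟩
  rcases lt_or_gt_of_ne hij with h | h
  · exact key i j h
  · rw [← neg_sub, neg_dvd]
    exact key j i h

theorem e5_inj {p q : ℤ} (h : 2 * p * q * (p - q) * (p + q) ≠ 0) :
    Function.Injective (e5 p q) := by
  intro i j hij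
  by_contra hne
  have h1 := e5_dvd p q hne
  rw [hij, sub_self, zero_dvd_iff] at h1
  exact h (pow_eq_zero_iff (two_ne_zero) |>.1 h1)

theorem conf_x4 {p q : ℤ} (h : 2 * p * q * (p - q) * (p + q) ≠ 0) (hpq : IsCoprime p q) :
    Conf (x4 p q) := by
  refine ⟨?_, ?_, ?_⟩
  · obtain ⟨d, hd⟩ : ∃ d, d = univ.gcd (x4 p q) := ⟨_, rfl⟩
    rw [← hd]
    have h1 : d ∣ p ^ 2 := by
      rw [hd]
      exact Finset.gcd_dvd (f := x4 p q) (mem_univ 2)
    have h2 : d ∣ q ^ 2 := by
      rw [hd]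
      exact Finset.gcd_dvd (f := x4 p q) (mem_univ 3)
    have h3 : IsUnit d := (hpq.pow (m := 2) (n := 2)).isUnit_of_dvd' h1 h2
    have h4 : normalize d = d := by
      rw [hd]
      exact Finset.normalize_gcd
    rw [← h4]
    exact normalize_eq_one.2 h3
  · intro i h0
    have h1 : e5 p q i.succ = e5 p q 0 := by
      rw [e5_succ, h0]
      rfl
    exact Fin.succ_ne_zero _ (e5_inj h h1)
  · intro i j hij
    have h1 : e5 p q i.succ = e5 p q j.succ := by
      rw [e5_succ, e5_succ, hij]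
    exact Fin.succ_injective _ (e5_inj h h1)

theorem val_int_le_one (v : HeightOneSpectrum (𝓞 ℚ)) (z : ℤ) : v.valuation ℚ (z : ℚ) ≤ 1 := by
  rw [Pool.Agent.Q272.HA.val_natAbs]
  exact Pool.Agent.Y678.SZ.val_nat_le_one v _

theorem val_of_dvd (v : HeightOneSpectrum (𝓞 ℚ)) {m z : ℤ} (hm : v.valuation ℚ (m : ℚ) = 1)
    (hz : z ∣ m ^ 2) : v.valuation ℚ (z : ℚ) = 1 := by
  obtain ⟨y, hy⟩ := hz
  have h1 : v.valuation ℚ (z : ℚ) * v.valuation ℚ (y : ℚ) = 1 := by
    rw [← map_mul]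
    have : (z : ℚ) * y = (m : ℚ) ^ 2 := by exact_mod_cast hy.symm
    rw [this, map_pow, hm, one_pow]
  apply le_antisymm (val_int_le_one v z)
  rw [← h1]
  exact mul_le_of_le_one_right' (val_int_le_one v y)

/-- good reduction outside the primes which divide `2 p q (p - q) (p + q)` -/
theorem good_x4 {p q : ℤ} (h : 2 * p * q * (p - q) * (p + q) ≠ 0)
    (v : HeightOneSpectrum (𝓞 ℚ))
    (hv : v.valuation ℚ ((2 * p * q * (p - q) * (p + q) : ℤ) : ℚ) = 1) :
    minExp 2 (pol 1 (root (rx (x4 p q)))) v = 0 := by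
  have hinj : Function.Injective (root (rx (x4 p q))) := by
    intro i j hij
    rw [e5_eq, e5_eq] at hij
    exact e5_inj h (by exact_mod_cast hij)
  have h2 : v.valuation ℚ (2 : ℚ) = exp (-((0 : ℕ) : ℤ)) := by
    have h3 : v.valuation ℚ ((2 : ℤ) : ℚ) = 1 := by
      refine val_of_dvd v hv (Dvd.dvd.pow ?_ two_ne_zero)
      exact ⟨p * q * (p - q) * (p + q), by ring⟩
    have h4 : ((2 : ℤ) : ℚ) = 2 := by norm_num
    rw [h4] at h3
    rw [h3]
    simp
  have h5 := Pool.Agent.TH905.HS.minExp_bound_even (g := 2) (m := 5) rfl (d := 1) one_ne_zero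
    hinj v (t := 0) h2 (τ := 1) one_ne_zero (fun i => by
      rw [map_one, absW_le_one_iff, e5_eq]
      exact val_int_le_one v _) (by norm_num) (k := 0) (by simp) Even.zero
  have h6 : ∑ i, ∑ j ∈ univ.erase i, (Real.log (absW v (1 : ℚ)) -
      Real.log (absW v (root (rx (x4 p q)) i - root (rx (x4 p q)) j))) = 0 := by
    refine Finset.sum_eq_zero fun i _ => Finset.sum_eq_zero fun j hj => ?_
    have hij : i ≠ j := (Finset.ne_of_mem_erase hj).symm
    have h7 : v.valuation ℚ (root (rx (x4 p q)) i - root (rx (x4 p q)) j) =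
        v.valuation ℚ (1 : ℚ) := by
      rw [e5_eq, e5_eq, map_one]
      have h8 := val_of_dvd v hv (e5_dvd p q hij)
      push_cast at h8
      exact h8
    rw [absW_congr v h7, sub_self]
  rw [h6] at h5
  have hlog2 : 0 < Real.log 2 := Real.log_pos one_lt_two
  simp only [Nat.cast_zero, mul_zero, zero_mul, add_zero] at h5
  have h9 : (minExp 2 (pol 1 (root (rx (x4 p q)))) v : ℝ) ≤ 0 := by
    by_contra hc
    push Not at hc
    have := mul_pos hc hlog2
    linarith
  have h10 : minExp 2 (pol 1 (root (rx (x4 p q)))) v ≤ 0 := by exact_mod_cast h9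
  omega

/-- the bad primes -/
theorem bad_x4 {p q : ℤ} (h : 2 * p * q * (p - q) * (p + q) ≠ 0) :
    badNorm 2 (pol 1 (root (rx (x4 p q)))) ≤ (2 * p * q * (p - q) * (p + q)).natAbs := by
  have hinj : Function.Injective (root (rx (x4 p q))) := by
    intro i j hij
    rw [e5_eq, e5_eq] at hij
    exact e5_inj h (by exact_mod_cast hij)
  have hF : IsHyp 2 (pol (1 : ℚ) (root (rx (x4 p q)))) := pol_isHyp rfl one_ne_zero hinj
  have h1 := Pool.Agent.Y678.SZ.bad_upper hF (m := (2 * p * q * (p - q) * (p + q)).natAbs)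
    (Int.natAbs_ne_zero.2 h) (fun v hv => by
      by_contra hcon
      apply hv
      apply good_x4 h v
      rw [Pool.Agent.Q272.HA.val_natAbs]
      exact le_antisymm (Pool.Agent.Y678.SZ.val_nat_le_one v _) (not_lt.1 hcon))
  rwa [Module.finrank_self, pow_one] at h1

end Pool.Agent.H583.HC
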